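import Pool.Agent.KDD.Stmts
import Pool.Agent.Helper32_SZT.KAP

/-!
# Squad KDD, row TKA: the positions at a twin are additive (copy of SZT KAP, author helper32)
-/

set_option autoImplicit false

namespace Pool.Agent.KDD.H75

open Polynomial NumberField H58Q Pool.Agent.SZT Pool.Agent.SZT.B Pool.Agent.KDT Pool.Agent.KDS
open Pool.Agent.SZT.H32 (mum_one mum_neg MI_one SameCl.mul' SameCl.trans' SameCl.symm'
  SameCl.refl' principal_of_sameCl)

theorem tka (cht : TchStatement) (inv : SZT.B.InvStmt) (nrm : SZT.B.NrmStmt)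
    (rep : SZT.B.RepStmt) (add : TadStatement) : TkaStatement := by
  classical
  intro K L _ _ _ _ φ f θ s h2 hf h5 hnode hsq hsplit I hI
  have : IsDomain (Q K f) := isDomain (g := 2) (by rw [h5])
  have hodd : Odd f.natDegree := by rw [h5]; decide
  have hmo : f.Monic := by
    refine monic_of_injective φ.injective ?_
    rw [hnode.fac]
    exact monic_prod_of_monic _ _ fun i _ => monic_X_sub_C _
  -- the sum of positions of a pair
  set S : K[X] → K[X] → ℝ := fun A B => SZT.B.ss θ s (A.map φ) (B.map φ) with hS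
  obtain ⟨hc1, hc2, _⟩ := cht L (f.map φ) θ s hnode hsq
  -- the roots
  have hroot : ∀ A B : K[X], Mum f A B → ∀ a ∈ (A.map φ).roots,
      ((B.map φ).eval a) ^ 2 = (f.map φ).eval a := by
    intro A B hM a ha
    obtain ⟨G, hG⟩ := hM.dvd
    have h1 : (A.map φ).eval a = 0 := (mem_roots'.1 ha).2
    have h3 := congrArg (fun q : K[X] => (q.map φ).eval a) hG
    simp only [Polynomial.map_sub, Polynomial.map_pow, Polynomial.map_mul, eval_sub, eval_pow,
      eval_mul, h1, zero_mul] at h3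
    exact sub_eq_zero.1 h3
  -- the opposite pair
  have hneg : ∀ A B : K[X], Mum f A B → ∃ c : ℤ, S A (-B) = c - S A B := by
    intro A B hM
    refine ⟨((A.map φ).roots.filter (fun a => ‖a - SZT.B.ctr θ‖ < 1)).card, ?_⟩
    have h3 : S A (-B) + S A B =
        (((A.map φ).roots.filter (fun a => ‖a - SZT.B.ctr θ‖ < 1)).card : ℝ) := by
      simp only [hS, SZT.B.ss, SZT.B.nz, Multiset.map_map, Function.comp_def]
      rw [← Multiset.sum_map_add]
      have h4 : ∀ a ∈ (A.map φ).roots.filter (fun a => ‖a - SZT.B.ctr θ‖ < 1),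
          SZT.B.pos ‖SZT.B.eta θ‖ (SZT.B.crd θ s a (((-B).map φ).eval a)) +
            SZT.B.pos ‖SZT.B.eta θ‖ (SZT.B.crd θ s a ((B.map φ).eval a)) = 1 := by
        intro a ha
        obtain ⟨ha1, ha2⟩ := Multiset.mem_filter.1 ha
        obtain ⟨h6, _, _, h7⟩ := hc2 a ((B.map φ).eval a) (hroot A B hM a ha1) ha2
        rw [Polynomial.map_neg, eval_neg, h7]
        obtain ⟨_, _, _, _, _, _, _, h8, _, _⟩ := hc1 _ h6
        rw [h8]
        ring
      rw [Multiset.map_congr rfl h4]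
      simp
    push_cast
    linarith
  -- the unit pair
  have hone : S 1 0 = 0 := by
    simp [hS, SZT.B.ss, SZT.B.nz]
  -- additivity
  have hadd : ∀ A B : Fin 3 → K[X], (∀ i, Mum f (A i) (B i)) →
      (∃ ψ, MI f (A 0) (B 0) * MI f (A 1) (B 1) * MI f (A 2) (B 2) = Ideal.span {ψ}) →
      ∃ k : ℤ, S (A 0) (B 0) + S (A 1) (B 1) + S (A 2) (B 2) = k := by
    rintro A B hM ⟨ψ, hψ⟩
    obtain ⟨κ, hκ, hn⟩ := nrm K f A B ψ h2 hodd hf hM hψ
    obtain ⟨k, hk⟩ := add K L φ f θ s A B ψ κ hnode hsq hM (fun i => hsplit _) hψ hκ hn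
    refine ⟨k, ?_⟩
    rw [Fin.sum_univ_three] at hk
    exact hk
  -- (i)
  have hi : ∀ A B : K[X], Mum f A B → (∃ ψ, MI f A B = Ideal.span {ψ}) →
      ∃ j : ℤ, S A B = j := by
    rintro A B hM ⟨ψ, hψ⟩
    obtain ⟨k, hk⟩ := hadd ![A, 1, 1] ![B, 0, 0] (by
      intro i
      fin_cases i
      · exact hM
      · exact mum_one f
      · exact mum_one f) ⟨ψ, by
        change MI f A B * MI f 1 0 * MI f 1 0 = _
        rw [MI_one, Ideal.mul_top, Ideal.mul_top, hψ]⟩
    refine ⟨k, ?_⟩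
    have hk' : S A B + S 1 0 + S 1 0 = k := hk
    rw [hone, add_zero, add_zero] at hk'
    exact hk'
  -- (ii)
  have hii : ∀ A B A' B' A₁ B₁ : K[X], ∀ I J : Ideal (Q K f), Mum f A B → Mum f A' B' →
      Mum f A₁ B₁ → SameCl (MI f A B) (I * J) → SameCl (MI f A' B') I →
      SameCl (MI f A₁ B₁) J → ∃ j : ℤ, S A B = S A' B' + S A₁ B₁ + j := by
    intro A B A' B' A₁ B₁ I J hM hM' hM₁ h1 h3 h4
    have h6 : SameCl (MI f A' B' * MI f A₁ B₁ * MI f A (-B))
        (Ideal.span {(⟨A, 0⟩ : Q K f)}) := by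
      rw [← inv K f A B h2 hf hM]
      exact SameCl.mul' (SameCl.trans' (SameCl.mul' h3 h4) (SameCl.symm' h1)) (SameCl.refl' _)
    obtain ⟨k, hk⟩ := hadd ![A', A₁, A] ![B', B₁, -B] (by
      intro i
      fin_cases i
      · exact hM'
      · exact hM₁
      · exact mum_neg hM) (principal_of_sameCl h6)
    obtain ⟨c, hc⟩ := hneg A B hM
    have hk' : S A' B' + S A₁ B₁ + S A (-B) = k := hk
    refine ⟨c - k, ?_⟩
    push_cast
    linarith
  -- the reduced pair
  obtain ⟨A₁, B₁, hM₁, hd₁, hcl₁⟩ := rep K f h2 hmo h5 hf I hI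
  have hpow : ∀ k : ℕ, ∀ A B : K[X], Mum f A B → SameCl (MI f A B) (I ^ k) →
      ∃ j : ℤ, S A B = k * S A₁ B₁ + j := by
    intro k
    induction k with
    | zero =>
      intro A B hM hcl
      rw [pow_zero, Ideal.one_eq_top, ← Ideal.span_singleton_one] at hcl
      obtain ⟨j, hj⟩ := hi A B hM (principal_of_sameCl hcl)
      exact ⟨j, by rw [hj]; simp⟩
    | succ k ih =>
      intro A B hM hcl
      obtain ⟨A', B', hM', _, hcl'⟩ := rep K f h2 hmo h5 hf (I ^ k) (pow_ne_zero k hI)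
      obtain ⟨j, hj⟩ := ih A' B' hM' hcl'
      rw [pow_succ] at hcl
      obtain ⟨j', hj'⟩ := hii A B A' B' A₁ B₁ (I ^ k) I hM hM' hM₁ hcl hcl' hcl₁
      refine ⟨j + j', ?_⟩
      rw [hj', hj]
      push_cast
      ring
  exact ⟨S A₁ B₁, A₁, B₁, hM₁, hd₁, rfl, hpow⟩

end Pool.Agent.KDD.H75
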